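import Mathlib

/-!
# Strong Bergman asymptotics do not imply weak Bergman asymptotics (MP_58ffb3_an, dimension one)

`K` = closed unit disc, `V_K = log⁺ |z|`, `μ_K` = normalised arc length of the unit circle, and
`ν = ∑_j 2^(-4^j) ∑_{ζ^(2^j) = 1} 2^(-j) δ_ζ` (all `2^j`-th roots of unity, with masses decreasing extremely fast).

* (S) holds: for `2^j ≤ k + 1` the Bergman measure of every `ζ ∈ R_j` (the `2^j`-th roots of unity) is almost `1`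
  (Lagrange polynomials); up to a tiny error the rest of `B_k ν` is the Bergman measure of the ideal
  `I = (z^(2^j) - 1) P_{k - 2^j}`, which is invariant under rotation by `R_j` (`B_I ≤ B_k` and the total masses agree up
  to the tiny error). A probability measure on the circle invariant under `R_j` is close to `μ_K`.
* (W) fails at `z = 0`: `p = z^(2^j) - 1` has `∫ |p|² dν ≤ 4 ν(complement of R_j)`, so `B_k(0)` is enormous.

Every `S_XXX` below is a closed Prop with its complete proof in the doc string.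
-/

open MeasureTheory Filter Topology Polynomial

namespace Pool.Agent.Run7.h951.BG

noncomputable section

/-! ### Definitions of the final theorem -/

/-- subharmonic functions `ℂ → [-∞, ∞)`: upper semicontinuous, and at most the mean over every circle (that is, at most
the mean of every continuous majorant on the circle) -/
def IsSubharmonic (u : ℂ → EReal) : Prop :=
  UpperSemicontinuous u ∧ (∀ z, u z ≠ ⊤) ∧
    ∀ (z : ℂ) (r : ℝ), 0 < r → ∀ g : ℂ → ℝ, Continuous g → (∀ w, ‖w - z‖ = r → u w ≤ ((g w : ℝ) : EReal)) →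
      u z ≤ ((Real.circleAverage g z r : ℝ) : EReal)

/-- the Siciak-Zaharjuta extremal function of `K` in dimension one -/
def VK (K : Set ℂ) (z : ℂ) : EReal :=
  sSup {y : EReal | ∃ u : ℂ → EReal, IsSubharmonic u ∧
    (∃ C : ℝ, ∀ w, u w ≤ ((Real.posLog ‖w‖ + C : ℝ) : EReal)) ∧ (∀ w ∈ K, u w ≤ 0) ∧ y = u z}

/-- `μ = dd^c V` in dimension one: `μ = (1 / 2π) Δ V` in the sense of distributions -/
def IsDdc (V : ℂ → ℝ) (μ : Measure ℂ) : Prop :=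
  ∀ φ : ℂ → ℝ, ContDiff ℝ (⊤ : ℕ∞) φ → HasCompactSupport φ →
    ∫ z, V z * Laplacian.laplacian φ z = 2 * Real.pi * ∫ z, φ z ∂μ

/-- `e` is orthonormal in `L²(ν)` -/
def IsOrtho (ν : Measure ℂ) {m : ℕ} (e : Fin m → ℂ[X]) : Prop :=
  ∀ i j, ∫ z, (e i).eval z * (starRingEnd ℂ) ((e j).eval z) ∂ν = if i = j then 1 else 0

/-- the Bergman function of a finite family -/
def BF {m : ℕ} (e : Fin m → ℂ[X]) (z : ℂ) : ℝ := ∑ i, ‖(e i).eval z‖ ^ 2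

/-- `B` is the `k`-th Bergman function of `ν`: `∑ |e_i|²` for an `L²(ν)`-orthonormal basis `e_0, ..., e_k` of the
polynomials of degree at most `k` -/
def IsBergman (ν : Measure ℂ) (k : ℕ) (B : ℂ → ℝ) : Prop :=
  ∃ e : Fin (k + 1) → ℂ[X], (∀ i, (e i).natDegree ≤ k) ∧ IsOrtho ν e ∧ ∀ z, B z = BF e z

/-- (S): the probability measures `B_k ν / (k + 1)` converge weakly to `μ` -/
def PropS (ν : Measure ℂ) (B : ℕ → ℂ → ℝ) (μ : Measure ℂ) : Prop :=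
  ∀ f : ℂ → ℝ, Continuous f →
    Tendsto (fun k : ℕ => ((k : ℝ) + 1)⁻¹ * ∫ z, f z * B k z ∂ν) atTop (𝓝 (∫ z, f z ∂μ))

/-- (W): `(2k)⁻¹ log B_k` converges to `V` locally uniformly -/
def PropW (B : ℕ → ℂ → ℝ) (V : ℂ → ℝ) : Prop :=
  TendstoLocallyUniformly (fun (k : ℕ) (z : ℂ) => (2 * (k : ℝ))⁻¹ * Real.log (B k z)) V atTop

/-- normalised arc length on the unit circle -/
def sig : Measure ℂ :=
  ENNReal.ofReal (2 * Real.pi)⁻¹ • Measure.map (circleMap 0 1) (volume.restrict (Set.Ioc 0 (2 * Real.pi)))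

/-- the `2^j`-th roots of unity -/
def Rt (j : ℕ) : Finset ℂ := Polynomial.nthRootsFinset (2 ^ j) (1 : ℂ)

/-- `2^(-4^j)` -/
def cw (j : ℕ) : ℝ := (1 / 2 : ℝ) ^ (4 ^ j)

/-- the measure of the counterexample -/
def nu : Measure ℂ :=
  Measure.sum fun j : ℕ => ENNReal.ofReal (cw j / 2 ^ j) • ∑ ζ ∈ Rt j, Measure.dirac ζ

/-! ### Potential theory of the disc -/

/-- MAX (maximum principle outside the disc), 80-120 lines.
Proof. For `‖z‖ ≤ 1` trivial (`posLog ≥ 0`, it is `0` there). Let `‖z₀‖ > 1`, suppose `log⁺ ‖z₀‖ < u z₀`. Choose `δ > 0` real with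
`(1 + δ) log ‖z₀‖ < u z₀` (if `u z₀` is real: continuity; `u z₀ = ⊥` is impossible, `u z₀ ≠ ⊤`). It is convenient to work
with `D = {‖z‖ ≥ 1}` and the EReal function `h z = u z - (1 + δ) log⁺ ‖z‖` (upper semicontinuous, because `log⁺` is
continuous and real). By the growth `h z ≤ C - δ log ‖z‖ < 0 < h z₀` for `‖z‖ > R`, so `h` attains its maximum over
`{1 ≤ ‖z‖ ≤ R}` (compact; `UpperSemicontinuousOn.exists_isMaxOn`), with value `M > 0`, and `h ≤ M` on `D`. The set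
`A = {z : 1 ≤ ‖z‖ ≤ R, h z ≥ M}` is closed (usc) and bounded, nonempty; let `z*` in `A` have minimal norm. `‖z*‖ ≠ 1`
because `h ≤ 0 < M` on the unit circle. Let `r = (‖z*‖ - 1) / 2`, `q = z* (1 - r / ‖z*‖)`, so `‖q - z*‖ = r`,
`1 < ‖q‖ < ‖z*‖`, hence `h q < M`. By usc there are `s > 0` and a real `M' < M` with `h < M'` on the ball `B(q, s)`.
Put `g w = (1 + δ) log⁺ ‖w‖ + M - (M - M') max (0, 1 - ‖w - q‖ / s)`: continuous, `u ≤ g` on the circle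
`‖w - z*‖ = r` (which lies in `D`). So `u z* ≤ circleAverage g z* r`. The circle average of `(1 + δ) log⁺ ‖w‖ = (1 + δ) log ‖w‖` is
`(1 + δ) log ‖z*‖` (harmonic; `circleAverage_log_norm_sub_const_eq_log_radius_add_posLog` with `a = 0`, `c = z*`, `R = r`:
`log r + log⁺ (r⁻¹ ‖z*‖) = log ‖z*‖`), and the average of the bump `max (0, 1 - ‖w - q‖ / s)` is positive (continuous,
nonnegative, `1` at `q`). So `u z* < (1 + δ) log ‖z*‖ + M`, contradicting `h z* = M`. -/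
def S_MAX : Prop := ∀ u : ℂ → EReal, IsSubharmonic u → (∃ C : ℝ, ∀ w, u w ≤ ((Real.posLog ‖w‖ + C : ℝ) : EReal)) →
  (∀ w ∈ Metric.closedBall (0 : ℂ) 1, u w ≤ 0) → ∀ z, u z ≤ ((Real.posLog ‖z‖ : ℝ) : EReal)

/-- POS (`log⁺ |z|` is subharmonic), 40-60 lines.
Proof. Continuity gives usc. Let `g` be a continuous majorant on the circle. `g ≥ 0` on the circle, so the average of `g`
is `≥ 0`. If `‖z‖ ≤ 1` done. If `‖z‖ > 1`: `g w ≥ log ‖w‖` on the circle (`posLog ≥ log`), so `average g ≥ average log ‖w‖ =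
log r + log⁺ (r⁻¹ ‖z‖) ≥ log r + log (r⁻¹ ‖z‖) = log ‖z‖` (`circleAverage_log_norm_sub_const_eq_log_radius_add_posLog`
with `a = 0`; integrability of `log ‖w‖` on circles: `circleIntegrable_log_norm_meromorphicOn` or similar;
monotonicity `Real.circleAverage_mono`). -/
def S_POS : Prop := IsSubharmonic fun z : ℂ => ((Real.posLog ‖z‖ : ℝ) : EReal)

/-- SIG, 20-40 lines. `sig` is a probability measure, lives on the circle, and its integrals are circle averages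
(`integral_map`, `intervalIntegral.integral_of_le`). -/
def S_SIG : Prop := IsProbabilityMeasure sig ∧ sig (Metric.sphere (0 : ℂ) 1)ᶜ = 0 ∧
  ∀ f : ℂ → ℝ, Continuous f → ∫ z, f z ∂sig = Real.circleAverage f 0 1

/-- LAPP (the Laplacian in polar coordinates, pointwise), 60-100 lines. For `φ` smooth, real variable derivatives:
`φ₁(r, θ) = Dφ(r e^{iθ}) (r e^{iθ})` and `φ₂(r, θ) = Dφ(r e^{iθ}) (i r e^{iθ})` satisfy
`∂φ₁/∂r + (1/r) ∂φ₂/∂θ = r Δφ (r e^{iθ})` for `r > 0`.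
Proof. With `e = e^{iθ}`: `∂φ₁/∂r = D²φ(e, r e) + Dφ(e)`, `∂φ₂/∂θ = D²φ(i r e, i r e) - Dφ(r e)`; so the left side is
`r (D²φ(e, e) + D²φ(i e, i e))`, and `Δφ = D²φ(1,1) + D²φ(i,i)` (`laplacian_eq_iteratedFDeriv_complexPlane`) is the trace
in the orthonormal basis `e, i e` too: with `e = c + s i`, bilinearity and symmetry of `D²φ` (`c² + s² = 1`). -/
def S_LAPP : Prop := ∀ φ : ℂ → ℝ, ContDiff ℝ (⊤ : ℕ∞) φ → ∀ r θ : ℝ, 0 < r → ∃ a b : ℝ,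
  HasDerivAt (fun t : ℝ => fderiv ℝ φ (t * Complex.exp (θ * Complex.I)) (t * Complex.exp (θ * Complex.I))) a r ∧
  HasDerivAt (fun t : ℝ => fderiv ℝ φ (r * Complex.exp (t * Complex.I)) (Complex.I * (r * Complex.exp (t * Complex.I)))) b θ ∧
  a + b / r = r * Laplacian.laplacian φ (r * Complex.exp (θ * Complex.I))

/-- LAPC (the distributional Laplacian of `log⁺ |z|`), 100-150 lines, uses S_LAPP.
Proof. Let `φ` vanish for `‖z‖ ≥ R`, `R > 1`. By polar coordinates (`Complex.integral_comp_polarCoord_symm`)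
`∫ log⁺ ‖z‖ Δφ = ∫_{r > 0} ∫_{θ ∈ (-π, π)} r log⁺ r Δφ(r e^{iθ}) = ∫_{r ∈ (1, R)} log r ∫_θ r Δφ(r e^{iθ})`. By LAPP
`r Δφ(r e^{iθ}) = ∂_r φ₁ + (1/r) ∂_θ φ₂`. For fixed `r` the integral of `∂_θ φ₂` over a period is `0` (continuous derivative,
periodic function). For fixed `θ`: `∫_1^R log r ∂_r φ₁ dr = [log r φ₁]_1^R - ∫_1^R φ₁ / r dr = 0 - ∫_1^R (d/dr) φ(r e^{iθ}) dr =
φ(e^{iθ})` (integration by parts; `φ₁ = 0` at `r = R`, `log 1 = 0`). Fubini for continuous functions on the rectangle. So the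
integral is `∫_{-π}^{π} φ(e^{iθ}) dθ = 2π circleAverage φ 0 1` (periodicity). -/
def S_LAPC : Prop := ∀ φ : ℂ → ℝ, ContDiff ℝ (⊤ : ℕ∞) φ → HasCompactSupport φ →
  ∫ z : ℂ, Real.posLog ‖z‖ * Laplacian.laplacian φ z = 2 * Real.pi * Real.circleAverage φ 0 1

/-! ### The measure -/

/-- The properties of `ν` which are used. -/
def Good (ν : Measure ℂ) : Prop :=
  IsFiniteMeasure ν ∧ ν (Metric.sphere (0 : ℂ) 1)ᶜ = 0 ∧
  (∀ j : ℕ, ∀ ζ ∈ Rt j, cw j / 2 ^ j ≤ ν.real {ζ}) ∧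
  (∀ j : ℕ, ν.real ((Rt j : Set ℂ))ᶜ ≤ 2 * cw (j + 1)) ∧
  (∀ j : ℕ, ∀ ω ∈ Rt j, ∀ f : ℂ → ℝ, Continuous f →
    ∫ z in ((Rt j : Set ℂ))ᶜ, f (ω * z) ∂ν = ∫ z in ((Rt j : Set ℂ))ᶜ, f z ∂ν)

/-- ROOT, 30-50 lines. Elementary facts about the `2^j`-th roots of unity: `Rt i ⊆ Rt j` for `i ≤ j`, membership
(`mem_nthRootsFinset`), number (`IsPrimitiveRoot.card_nthRootsFinset`), norm one, closed under multiplication; and for all
`z, w` on the circle some `ω ∈ Rt j` has `‖z - ω w‖ ≤ 7 / 2^j` (`z = w e^{iβ}`, `0 ≤ β < 2π`, `l = ⌊β 2^j / 2π⌋`, `ω = e^{2πil/2^j}`,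
`‖e^{iβ} - e^{iβ'}‖ ≤ |β - β'|`). -/
def S_ROOT : Prop := (∀ j z, z ∈ Rt j ↔ z ^ (2 ^ j) = 1) ∧ (∀ j, (Rt j).card = 2 ^ j) ∧
  (∀ i j, i ≤ j → Rt i ⊆ Rt j) ∧ (∀ j, ∀ z ∈ Rt j, ‖z‖ = 1) ∧
  (∀ j, ∀ z ∈ Rt j, ∀ w ∈ Rt j, z * w ∈ Rt j) ∧
  (∀ j, ∀ z w : ℂ, ‖z‖ = 1 → ‖w‖ = 1 → ∃ ω ∈ Rt j, ‖z - ω * w‖ ≤ 7 / 2 ^ j)

/-- NU1, 50-80 lines. Finite (`∑ cw j < ∞`: `cw j ≤ 2^{-j-1}`; the `j`-th term of `nu` has mass `cw j`), carried by the circle,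
atoms at least `cw j / 2^j` (the `j`-th term alone). -/
def S_NU1 : Prop := IsFiniteMeasure nu ∧ nu (Metric.sphere (0 : ℂ) 1)ᶜ = 0 ∧
  ∀ j : ℕ, ∀ ζ ∈ Rt j, cw j / 2 ^ j ≤ nu.real {ζ}

/-- NU2, 40-60 lines. Only the terms `i > j` charge the complement of `Rt j`, the `i`-th with mass at most `cw i`, and
`cw (i + 1) ≤ cw i / 2`, so the total is at most `2 cw (j + 1)`. -/
def S_NU2 : Prop := ∀ j : ℕ, nu.real ((Rt j : Set ℂ))ᶜ ≤ 2 * cw (j + 1)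

/-- NU3, 40-70 lines. Invariance: for `ω ∈ Rt j` the map `z ↦ ω z` preserves `nu.restrict (Rt j)ᶜ`: for `i ≤ j` the `i`-th term
restricted to the complement is `0`; for `i > j` it is `cw i / 2^i` times the sum of `dirac ζ` over `Rt i \ Rt j`, and
multiplication by `ω` permutes `Rt i \ Rt j`. (Show `Measure.map (ω * ·) (nu.restrict _) = nu.restrict _` and use
`integral_map`, or sum the integrals.) -/
def S_NU3 : Prop := ∀ j : ℕ, ∀ ω ∈ Rt j, ∀ f : ℂ → ℝ, Continuous f →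
    ∫ z in ((Rt j : Set ℂ))ᶜ, f (ω * z) ∂nu = ∫ z in ((Rt j : Set ℂ))ᶜ, f z ∂nu

/-! ### Bergman functions -/

/-- PD, 30-50 lines. A nonzero polynomial has finitely many roots, the roots of unity of order `2^j` are infinitely many
atoms of `ν`; `∫ |p|² ≥ |p ζ|² ν {ζ} > 0`. -/
def S_PD : Prop := ∀ ν : Measure ℂ, Good ν → ∀ p : ℂ[X], p ≠ 0 → 0 < ∫ z, ‖p.eval z‖ ^ 2 ∂ν

/-- ONB (Gram-Schmidt), 60-100 lines. Every finite-dimensional space of polynomials has an orthonormal basis for `L²(ν)`,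
if `∫ |p|² dν > 0` for `p ≠ 0`. Proof: an inner product `⟪p, q⟫ = ∫ conj(p) q dν` on `E` (`InnerProductSpace.ofCore`, or induction
on the dimension), `stdOrthonormalBasis`; polynomials are integrable: `ν` is finite and carried by the circle. -/
def S_ONB : Prop := ∀ ν : Measure ℂ, IsFiniteMeasure ν → ν (Metric.sphere (0 : ℂ) 1)ᶜ = 0 →
  (∀ p : ℂ[X], p ≠ 0 → 0 < ∫ z, ‖p.eval z‖ ^ 2 ∂ν) → ∀ (E : Submodule ℂ ℂ[X]) (m : ℕ), FiniteDimensional ℂ E →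
  Module.finrank ℂ E = m → ∃ e : Fin m → ℂ[X], (∀ i, e i ∈ E) ∧ IsOrtho ν e ∧ Submodule.span ℂ (Set.range e) = E

/-- BFX (extremal property), 60-100 lines. For `e` orthonormal in `L²(ν)`, `ν` finite and carried by the circle:
`∫ B dν = m`; `|p(z)|² ≤ B(z) ∫ |p|²` for `p` in the span (`p = ∑ c_i e_i`, `∫ |p|² = ∑ |c_i|²`, Cauchy-Schwarz); and
`p = ∑ conj(e_i(z)) e_i` has `p(z) = B(z) = ∫ |p|²`; an orthonormal family is linearly independent. -/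
def S_BFX : Prop := ∀ ν : Measure ℂ, IsFiniteMeasure ν → ν (Metric.sphere (0 : ℂ) 1)ᶜ = 0 →
  ∀ (m : ℕ) (e : Fin m → ℂ[X]), IsOrtho ν e →
  (∫ z, BF e z ∂ν = m) ∧ LinearIndependent ℂ e ∧
  (∀ p ∈ Submodule.span ℂ (Set.range e), ∀ z : ℂ, ‖p.eval z‖ ^ 2 ≤ BF e z * ∫ w, ‖p.eval w‖ ^ 2 ∂ν) ∧
  (∀ z : ℂ, ∃ p ∈ Submodule.span ℂ (Set.range e), p.eval z = ((BF e z : ℝ) : ℂ) ∧ ∫ w, ‖p.eval w‖ ^ 2 ∂ν = BF e z)

/-- IDEAL, 40-60 lines. The polynomials of degree `≤ k` vanishing on `Rt j` (`2^j ≤ k + 1`) form a space of dimension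
`k + 1 - 2^j`, closed under `p(z) ↦ p(ω z)` for `ω ∈ Rt j`. (It is the image of the polynomials of degree `≤ k - 2^j` under
multiplication by `X^(2^j) - 1`; or: kernel of the surjective evaluation map to `ℂ^(Rt j)`, Lagrange interpolation.) -/
def S_IDEAL : Prop := ∀ j k : ℕ, 2 ^ j ≤ k + 1 → ∃ E : Submodule ℂ ℂ[X], FiniteDimensional ℂ E ∧
  Module.finrank ℂ E = k + 1 - 2 ^ j ∧ (∀ p : ℂ[X], p ∈ E ↔ p.natDegree ≤ k ∧ ∀ ζ ∈ Rt j, p.eval ζ = 0) ∧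
  ∀ ω ∈ Rt j, ∀ p ∈ E, p.comp (C ω * X) ∈ E

/-- LAG, 30-50 lines. `ℓ = (1/N) ∑_{i < N} (z ζ⁻¹)^i`, `N = 2^j`: degree `< N`, `1` at `ζ`, `0` at the other `N`-th roots of unity
(geometric sum), at most `1` in norm on the circle. -/
def S_LAG : Prop := ∀ j : ℕ, ∀ ζ ∈ Rt j, ∃ l : ℂ[X], l.natDegree < 2 ^ j ∧ l.eval ζ = 1 ∧
  (∀ ξ ∈ Rt j, ξ ≠ ζ → l.eval ξ = 0) ∧ ∀ z : ℂ, ‖z‖ = 1 → ‖l.eval z‖ ≤ 1

/-- `2^(j+1) cw(j+1) / cw j`: the tiny error -/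
def de (j : ℕ) : ℝ := 2 ^ (j + 1) * cw (j + 1) / cw j

/-- MASS, 120-160 lines. For `2^j ≤ k + 1` and the Bergman function `B` of degree `k` there is `B'` (the Bergman function of
IDEAL) with: `0 ≤ B' ≤ B`, `B' = 0` on `Rt j`, `B' (ω z) = B' z`, `∫_{(Rt j)ᶜ} B' dν = k + 1 - 2^j`; moreover
`1 - de j ≤ B(ζ) ν{ζ} ≤ 1` on `Rt j` and `∫ B dν = k + 1`.
Proof. The family of `B` is a basis of the polynomials of degree `≤ k` (orthonormal, `k + 1` elements). Take an orthonormal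
basis `e'` of IDEAL in `L²(ν)`, `B' = BF e'`. For `z` choose `p` in the ideal with `p(z) = B'(z) = ∫ |p|²`; `|p(z)|² ≤ B(z) ∫ |p|²` gives
`B' ≤ B` (if `B'(z) > 0`). Vanishing on `Rt j` is clear. Invariance: with the same `p` at the point `ω z`, `q = p(ω ·)` lies in the
ideal, `∫ |q|² = ∫_{(Rt j)ᶜ} |q|² = ∫_{(Rt j)ᶜ} |p|² = ∫ |p|²` (Good, last item; `p, q` vanish on `Rt j`), `q(z) = p(ω z)`, so
`B'(ω z) ≤ B'(z)`; iterating `2^j` times gives equality. `∫ B' dν = dim = k + 1 - 2^j` and the integral over `Rt j` is `0`.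
`B(ζ) ν{ζ} ≤ 1`: `p` with `p(ζ) = B(ζ) = ∫ |p|² ≥ |p(ζ)|² ν{ζ} = B(ζ)² ν{ζ}`. Lower bound: LAG, `1 = |ℓ(ζ)|² ≤ B(ζ) ∫ |ℓ|² ≤
B(ζ) (ν{ζ} + ν((Rt j)ᶜ))`, so `B ν{ζ} ≥ ν{ζ} / (ν{ζ} + 2 cw(j+1)) ≥ 1 - 2 cw(j+1) / ν{ζ} ≥ 1 - de j`. -/
def S_MASS : Prop := ∀ ν : Measure ℂ, Good ν → ∀ j k : ℕ, 2 ^ j ≤ k + 1 → ∀ B : ℂ → ℝ, IsBergman ν k B →
  Continuous B ∧ (∫ z, B z ∂ν = (k : ℝ) + 1) ∧
  (∀ ζ ∈ Rt j, 1 - de j ≤ B ζ * ν.real {ζ} ∧ B ζ * ν.real {ζ} ≤ 1) ∧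
  ∃ B' : ℂ → ℝ, Continuous B' ∧ (∀ z, 0 ≤ B' z) ∧ (∀ z, B' z ≤ B z) ∧ (∀ ζ ∈ Rt j, B' ζ = 0) ∧
    (∀ ω ∈ Rt j, ∀ z, B' (ω * z) = B' z) ∧ ∫ z in ((Rt j : Set ℂ))ᶜ, B' z ∂ν = (k : ℝ) + 1 - 2 ^ j

/-- AVG, 50-80 lines. Averages over `Rt j` converge uniformly on the circle to the circle average. Proof. `F_j(z) = 2^{-j} ∑_{ω}
f(ω z)`; the circle average of `F_j` is that of `f` (rotation invariance of the circle average); by uniform continuity of `f` on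
the circle and the last item of ROOT, `|F_j(z) - F_j(w)| ≤ ε` for all `z, w` on the circle (`F_j(w) = F_j(ω₀ w)`, and
`‖ω z - ω ω₀ w‖ = ‖z - ω₀ w‖ ≤ 7 / 2^j`). -/
def S_AVG : Prop := ∀ f : ℂ → ℝ, Continuous f → ∀ ε : ℝ, 0 < ε → ∃ J : ℕ, ∀ j ≥ J, ∀ z : ℂ, ‖z‖ = 1 →
  |(2 ^ j : ℝ)⁻¹ * ∑ ω ∈ Rt j, f (ω * z) - Real.circleAverage f 0 1| ≤ ε

/-- LIM, 100-150 lines. (S) from MASS, AVG, SIG. Proof. Let `j = ⌊log₂ (k + 1)⌋`, `N = 2^j ≤ k + 1`, `|f| ≤ M` on the circle. Then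
`∫ f B dν = ∑_{Rt j} f B ν{ζ} + ∫_{(Rt j)ᶜ} f B`, `∫_{(Rt j)ᶜ} B = k + 1 - ∑ B(ζ) ν{ζ} ≤ k + 1 - N + N de j`, so
`|∫ f B dν - ∑_{Rt j} f(ζ) - ∫_{(Rt j)ᶜ} f B'| ≤ M N de j + M N de j`. By the invariances `∑ f(ζ) + ∫ f B' = ∑ F_j(ζ) + ∫ F_j B'`, which is
`(k + 1) circleAverage f` up to `(k + 1) ε` (AVG; total mass `N + (k + 1 - N)`). Divide by `k + 1`; `de j → 0`. -/
def S_LIM : Prop := ∀ ν : Measure ℂ, Good ν → ∀ B : ℕ → ℂ → ℝ, (∀ k, IsBergman ν k (B k)) → PropS ν B sig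

/-- NW, 50-80 lines. (W) fails. Proof. `k = 2^j`, `p = X^(2^j) - 1`, `∫ |p|² dν ≤ 4 ν((Rt j)ᶜ) ≤ 8 cw(j+1)`, `|p(0)|² = 1`, so
`B_k(0) ≥ 2^(4^(j+1) - 3)` (BFX) and `(2k)⁻¹ log B_k(0) ≥ (4^(j+1) - 3) log 2 / 2^(j+1) ≥ (log 2) / 2`, while `log⁺ 0 = 0`. -/
def S_NW : Prop := ∀ ν : Measure ℂ, Good ν → ∀ B : ℕ → ℂ → ℝ, (∀ k, IsBergman ν k (B k)) →
  (∀ j : ℕ, Real.log 2 / 2 * 2 ^ j ≤ (2 * ((2 ^ j : ℕ) : ℝ))⁻¹ * Real.log (B (2 ^ j) 0)) ∧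
  ¬ PropW B (fun z => Real.posLog ‖z‖)

end

end Pool.Agent.Run7.h951.BG
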