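import Pool.Agent.Run7.h951.BG.Stm

open MeasureTheory Filter Topology Polynomial
open Pool.Agent.Run7.h951.BG

namespace Pool.Agent.Run7.h951.P793

/-- rotation invariance of the circle average -/
theorem ca_rot (f : ℂ → ℝ) (ω : ℂ) (hω : ‖ω‖ = 1) :
    Real.circleAverage (fun z => f (ω * z)) 0 1 = Real.circleAverage f 0 1 := by
  obtain ⟨η, hη⟩ : ∃ η : ℝ, ω = Complex.exp (η * Complex.I) := by
    refine ⟨Complex.arg ω, ?_⟩
    have := Complex.norm_mul_exp_arg_mul_I ω
    rw [hω] at this
    simpa using this.symm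
  rw [Real.circleAverage_eq_integral_add (f := f) η]
  unfold Real.circleAverage
  congr 2
  ext θ
  rw [hη]
  simp only [circleMap, zero_add, Complex.ofReal_one, one_mul]
  rw [← Complex.exp_add]
  congr 1
  push_cast
  ring_nf

theorem t_AVG : S_ROOT → S_AVG := by
  rintro ⟨hmem, hcard, hsub, hnorm, hmul, hnear⟩ f hf ε hε
  -- uniform continuity on the closed unit ball
  have hK : IsCompact (Metric.closedBall (0:ℂ) 1) := isCompact_closedBall 0 1
  have huc : UniformContinuousOn f (Metric.closedBall (0:ℂ) 1) :=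
    hK.uniformContinuousOn_of_continuous hf.continuousOn
  rw [Metric.uniformContinuousOn_iff] at huc
  obtain ⟨δ, hδ, huc⟩ := huc ε hε
  obtain ⟨J, hJ⟩ : ∃ J : ℕ, 7 / (2:ℝ) ^ J < δ := by
    obtain ⟨J, hJ⟩ := exists_pow_lt_of_lt_one (show (0:ℝ) < δ / 7 by positivity) (show (1/2:ℝ) < 1 by norm_num)
    refine ⟨J, ?_⟩
    rw [div_eq_mul_inv, ← inv_pow]
    have : (2:ℝ)⁻¹ = 1 / 2 := by norm_num
    rw [this]
    linarith
  refine ⟨J, ?_⟩
  intro j hj z hz
  have hj2 : 7 / (2:ℝ) ^ j < δ := by
    refine lt_of_le_of_lt ?_ hJ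
    apply div_le_div_of_nonneg_left (by norm_num) (by positivity)
    exact pow_le_pow_right₀ (by norm_num) hj
  -- the averages
  set F : ℂ → ℝ := fun w => (2 ^ j : ℝ)⁻¹ * ∑ ω ∈ Rt j, f (ω * w) with hF
  have hFc : Continuous F := by
    rw [hF]
    fun_prop
  have hne : ∀ ω ∈ Rt j, ω ≠ 0 := by
    intro ω hω h0
    have := hnorm j ω hω
    rw [h0, norm_zero] at this
    exact zero_ne_one this
  have hrot : ∀ ω0 ∈ Rt j, ∀ w, F (ω0 * w) = F w := by
    intro ω0 h0 w
    simp only [hF]
    congr 1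
    apply Finset.sum_bij (fun ω _ => ω * ω0)
    · intro ω hω
      exact hmul j ω hω ω0 h0
    · intro a _ b _ hab
      exact mul_right_cancel₀ (hne ω0 h0) hab
    · intro b hb
      have hinv : ω0⁻¹ ∈ Rt j := by
        rw [hmem] at h0 ⊢
        rw [inv_pow, h0, inv_one]
      refine ⟨b * ω0⁻¹, hmul j b hb _ hinv, ?_⟩
      rw [mul_assoc, inv_mul_cancel₀ (hne ω0 h0), mul_one]
    · intro ω _
      rw [mul_assoc]
  have hclose : ∀ w, ‖w‖ = 1 → |F z - F w| ≤ ε := by
    intro w hw
    obtain ⟨ω0, h0, hd⟩ := hnear j z w hz hw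
    rw [← hrot ω0 h0 w]
    simp only [hF]
    rw [← mul_sub, ← Finset.sum_sub_distrib, abs_mul, abs_of_pos (by positivity : (0:ℝ) < (2 ^ j : ℝ)⁻¹)]
    have : |∑ ω ∈ Rt j, (f (ω * z) - f (ω * (ω0 * w)))| ≤ (2 ^ j : ℝ) * ε := by
      refine le_trans (Finset.abs_sum_le_sum_abs _ _) ?_
      have : ∀ ω ∈ Rt j, |f (ω * z) - f (ω * (ω0 * w))| ≤ ε := by
        intro ω hω
        have hω1 := hnorm j ω hω
        have h01 := hnorm j ω0 h0
        have := huc (ω * z) (by rw [Metric.mem_closedBall, dist_zero_right, norm_mul, hω1, hz, one_mul])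
          (ω * (ω0 * w)) (by rw [Metric.mem_closedBall, dist_zero_right, norm_mul, norm_mul, hω1, h01, hw]; norm_num)
          (by
            rw [dist_eq_norm, ← mul_sub, norm_mul, hω1, one_mul]
            exact lt_of_le_of_lt hd hj2)
        rw [Real.dist_eq] at this
        exact this.le
      refine le_trans (Finset.sum_le_card_nsmul _ _ _ this) ?_
      rw [hcard j, nsmul_eq_mul]
      push_cast
      exact le_refl _
    calc (2 ^ j : ℝ)⁻¹ * |∑ ω ∈ Rt j, (f (ω * z) - f (ω * (ω0 * w)))| ≤ (2 ^ j : ℝ)⁻¹ * ((2 ^ j : ℝ) * ε) := by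
          apply mul_le_mul_of_nonneg_left this (by positivity)
      _ = ε := by
          rw [← mul_assoc, inv_mul_cancel₀ (by positivity), one_mul]
  -- circle average of F
  have hFavg : Real.circleAverage F 0 1 = Real.circleAverage f 0 1 := by
    have h1 : Real.circleAverage (fun w => ∑ ω ∈ Rt j, f (ω * w)) 0 1 = ∑ ω ∈ Rt j, Real.circleAverage (fun w => f (ω * w)) 0 1 := by
      apply Real.circleAverage_fun_sum
      intro ω _
      exact (by fun_prop : Continuous fun w => f (ω * w)).continuousOn.circleIntegrable (by norm_num)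
    have h2 : Real.circleAverage F 0 1 = (2 ^ j : ℝ)⁻¹ * Real.circleAverage (fun w => ∑ ω ∈ Rt j, f (ω * w)) 0 1 := by
      have := Real.circleAverage_fun_smul (a := (2 ^ j : ℝ)⁻¹) (f := fun w => ∑ ω ∈ Rt j, f (ω * w)) (c := 0) (R := 1)
      simpa [smul_eq_mul, hF] using this
    rw [h2, h1, Finset.sum_congr rfl (fun ω hω => ca_rot f ω (hnorm j ω hω)), Finset.sum_const, hcard j, nsmul_eq_mul]
    push_cast
    rw [← mul_assoc, inv_mul_cancel₀ (by positivity), one_mul]
  have hci : CircleIntegrable F 0 1 := hFc.continuousOn.circleIntegrable (by norm_num)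
  show |F z - Real.circleAverage f 0 1| ≤ ε
  rw [← hFavg, abs_le]
  have hup : Real.circleAverage F 0 1 ≤ F z + ε := by
    apply Real.circleAverage_mono_on_of_le_circle hci
    intro x hx
    have hx1 : ‖x‖ = 1 := by simpa using hx
    have := abs_le.1 (hclose x hx1)
    linarith [this.1]
  have hlo : F z - ε ≤ Real.circleAverage F 0 1 := by
    have h3 : Real.circleAverage (fun _ : ℂ => F z - ε) 0 1 = F z - ε := Real.circleAverage_const _ _ _
    rw [← h3]
    apply Real.circleAverage_mono _ hci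
    · intro x hx
      have hx1 : ‖x‖ = 1 := by simpa using hx
      have := abs_le.1 (hclose x hx1)
      linarith [this.2]
    · exact continuousOn_const.circleIntegrable (by norm_num)
  constructor <;> linarith

end Pool.Agent.Run7.h951.P793

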