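import Pool.Agent.Run7.h951.BG.Stm

open MeasureTheory Filter Topology Polynomial
open Pool.Agent.Run7.h951.BG

namespace Pool.Agent.Run7.h951.P793

theorem vol_Ioc : (volume (Set.Ioc (0:ℝ) (2 * Real.pi))) = ENNReal.ofReal (2 * Real.pi) := by
  rw [Real.volume_Ioc, sub_zero]

theorem sig_prob : IsProbabilityMeasure sig := by
  constructor
  unfold sig
  rw [Measure.smul_apply, Measure.map_apply (continuous_circleMap 0 1).measurable MeasurableSet.univ, Set.preimage_univ,
    Measure.restrict_apply_univ, vol_Ioc, smul_eq_mul, ← ENNReal.ofReal_mul (by positivity), inv_mul_cancel₀ (by positivity),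
    ENNReal.ofReal_one]

theorem sig_circle : sig (Metric.sphere (0 : ℂ) 1)ᶜ = 0 := by
  unfold sig
  rw [Measure.smul_apply, Measure.map_apply (continuous_circleMap 0 1).measurable
    (Metric.isClosed_sphere.measurableSet.compl)]
  have : circleMap 0 1 ⁻¹' (Metric.sphere (0 : ℂ) 1)ᶜ = ∅ := by
    ext θ
    simp [circleMap]
  rw [this, measure_empty, smul_zero]

theorem sig_int (f : ℂ → ℝ) (hf : Continuous f) : ∫ z, f z ∂sig = Real.circleAverage f 0 1 := by
  unfold sig Real.circleAverage
  rw [integral_smul_measure, integral_map (continuous_circleMap 0 1).measurable.aemeasurable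
    hf.aestronglyMeasurable, intervalIntegral.integral_of_le (by positivity), ENNReal.toReal_ofReal (by positivity)]

theorem t_SIG : S_SIG := ⟨sig_prob, sig_circle, sig_int⟩

end Pool.Agent.Run7.h951.P793

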