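import Pool.Agent.Run7.h951.BG.Tools

/-! Piece LIM. -/

open MeasureTheory Filter Topology Polynomial

namespace Pool.Agent.Run7.h951.BG

noncomputable section

lemma mulc {f g : ℂ → ℝ} (hf : Continuous f) (hg : Continuous g) : Continuous fun z => f z * g z := hf.mul hg

lemma de_le (j : ℕ) : de j ≤ (1 / 2 : ℝ) ^ j := by
  unfold de cw
  have h1 : (4 : ℕ) ^ (j + 1) = 4 ^ j + 3 * 4 ^ j := by ring
  have h2 : j < 4 ^ j := Nat.lt_pow_self (by norm_num)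
  have h3 : 2 * j + 1 ≤ 3 * 4 ^ j := by omega
  rw [h1, pow_add (1 / 2 : ℝ)]
  have h4 : ((1 / 2 : ℝ) ^ (3 * 4 ^ j)) ≤ (1 / 2 : ℝ) ^ (2 * j + 1) :=
    pow_le_pow_of_le_one (by norm_num) (by norm_num) h3
  have hp : (0 : ℝ) < (1 / 2 : ℝ) ^ (4 ^ j) := by positivity
  have h5 : (2 : ℝ) ^ (j + 1) * ((1 / 2 : ℝ) ^ (4 ^ j) * (1 / 2 : ℝ) ^ (3 * 4 ^ j)) / (1 / 2 : ℝ) ^ (4 ^ j) =
      2 ^ (j + 1) * (1 / 2 : ℝ) ^ (3 * 4 ^ j) := by
    generalize (1 / 2 : ℝ) ^ (3 * 4 ^ j) = y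
    generalize (1 / 2 : ℝ) ^ (4 ^ j) = x at hp ⊢
    field_simp
  rw [h5]
  calc (2 : ℝ) ^ (j + 1) * (1 / 2 : ℝ) ^ (3 * 4 ^ j) ≤ 2 ^ (j + 1) * (1 / 2 : ℝ) ^ (2 * j + 1) :=
        mul_le_mul_of_nonneg_left h4 (by positivity)
    _ = (2 ^ (j + 1) * (1 / 2 : ℝ) ^ (j + 1)) * (1 / 2 : ℝ) ^ j := by
        rw [mul_assoc, ← pow_add]; congr 2; ring
    _ = (1 / 2 : ℝ) ^ j := by rw [← mul_pow]; norm_num

/-- the main estimate -/
lemma est (hM : S_MASS) (hRT : S_ROOT) {ν : Measure ℂ} (hG : Good ν) {f : ℂ → ℝ} (hf : Continuous f)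
    {M ε A : ℝ} (hMf : ∀ z, ‖z‖ = 1 → |f z| ≤ M) (j k : ℕ) (hk : 2 ^ j ≤ k + 1)
    (hA : ∀ z : ℂ, ‖z‖ = 1 → |(2 ^ j : ℝ)⁻¹ * ∑ ω ∈ Rt j, f (ω * z) - A| ≤ ε) {B : ℂ → ℝ}
    (hB : IsBergman ν k B) :
    |∫ z, f z * B z ∂ν - ((k : ℝ) + 1) * A| ≤ 2 * M * (2 ^ j * de j) + ((k : ℝ) + 1) * ε := by
  obtain ⟨hfin, hsph, hatom, htail, hinv⟩ := id hG
  obtain ⟨r1, r2, r3, r4, r5, r6⟩ := hRT
  obtain ⟨hBc, hBi, hBa, B', hB'c, hB'n, hB'le, hB'0, hB'r, hB'i⟩ := hM ν hG j k hk B hB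
  set N : ℝ := 2 ^ j with hN
  have hNpos : 0 < N := by positivity
  have hM0 : 0 ≤ M := (abs_nonneg _).trans (hMf 1 (by simp))
  set β : ℂ → ℝ := fun ζ => B ζ * ν.real {ζ} with hβ
  -- the two parts of `∫ f B`
  have e1 : ∫ z, f z * B z ∂ν = ∑ ζ ∈ Rt j, f ζ * β ζ + ∫ z in ((Rt j : Set ℂ))ᶜ, f z * B z ∂ν := by
    rw [split_int hfin hsph j (mulc hf hBc)]
    congr 1
    refine Finset.sum_congr rfl fun ζ _ => ?_
    simp only [hβ]
    ring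
  have e2 : ∫ z in ((Rt j : Set ℂ))ᶜ, B z ∂ν = (k : ℝ) + 1 - ∑ ζ ∈ Rt j, β ζ := by
    have h1 := split_int hfin hsph j hBc
    rw [hBi] at h1
    have h2 : ∑ ζ ∈ Rt j, ν.real {ζ} * B ζ = ∑ ζ ∈ Rt j, β ζ :=
      Finset.sum_congr rfl fun ζ _ => mul_comm _ _
    linarith
  have hcard : ((Rt j).card : ℝ) = N := by rw [r2 j]; push_cast; rfl
  have hβs : N - N * de j ≤ ∑ ζ ∈ Rt j, β ζ := by
    have h1 : ∑ ζ ∈ Rt j, (1 - de j) ≤ ∑ ζ ∈ Rt j, β ζ := Finset.sum_le_sum fun ζ hζ => (hBa ζ hζ).1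
    rw [Finset.sum_const, nsmul_eq_mul, hcard] at h1
    linarith
  -- first error
  have g1 : |∑ ζ ∈ Rt j, f ζ * β ζ - ∑ ζ ∈ Rt j, f ζ| ≤ M * (N * de j) := by
    rw [← Finset.sum_sub_distrib]
    refine (Finset.abs_sum_le_sum_abs _ _).trans ?_
    have h1 : ∀ ζ ∈ Rt j, |f ζ * β ζ - f ζ| ≤ M * de j := by
      intro ζ hζ
      have h2 : f ζ * β ζ - f ζ = f ζ * (β ζ - 1) := by ring
      rw [h2, abs_mul]
      have h3 : |β ζ - 1| ≤ de j := by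
        rw [abs_le]
        constructor <;> [linarith [(hBa ζ hζ).1]; skip]
        have h4 : β ζ ≤ 1 := (hBa ζ hζ).2
        have h5 : 0 ≤ de j := by
          unfold de
          have := cw_pos j
          have := cw_pos (j + 1)
          positivity
        linarith
      exact mul_le_mul (hMf ζ (r4 j ζ hζ)) h3 (abs_nonneg _) hM0
    refine (Finset.sum_le_sum h1).trans (le_of_eq ?_)
    rw [Finset.sum_const, nsmul_eq_mul, hcard]
    ring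
  -- second error
  have hae := ae_restrict_of_ae (s := ((Rt j : Set ℂ))ᶜ) (ae_norm hsph)
  have iB : Integrable B (ν.restrict ((Rt j : Set ℂ))ᶜ) := (intg hfin hsph hBc).integrableOn
  have iB' : Integrable B' (ν.restrict ((Rt j : Set ℂ))ᶜ) := (intg hfin hsph hB'c).integrableOn
  have ifB : Integrable (fun z => f z * B z) (ν.restrict ((Rt j : Set ℂ))ᶜ) :=
    (intg hfin hsph (mulc hf hBc)).integrableOn
  have ifB' : Integrable (fun z => f z * B' z) (ν.restrict ((Rt j : Set ℂ))ᶜ) :=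
    (intg hfin hsph (mulc hf hB'c)).integrableOn
  have g2 : |∫ z in ((Rt j : Set ℂ))ᶜ, f z * B z ∂ν - ∫ z in ((Rt j : Set ℂ))ᶜ, f z * B' z ∂ν| ≤ M * (N * de j) := by
    rw [← integral_sub ifB ifB', ← Real.norm_eq_abs]
    have h1 : ∀ᵐ z ∂(ν.restrict ((Rt j : Set ℂ))ᶜ), ‖f z * B z - f z * B' z‖ ≤ M * (B z - B' z) := by
      filter_upwards [hae] with z hz
      rw [← mul_sub, Real.norm_eq_abs, abs_mul, abs_of_nonneg (sub_nonneg.2 (hB'le z))]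
      exact mul_le_mul_of_nonneg_right (hMf z hz) (sub_nonneg.2 (hB'le z))
    refine (norm_integral_le_of_norm_le ((iB.sub iB').const_mul M) h1).trans ?_
    have h2 : ∫ z in ((Rt j : Set ℂ))ᶜ, M * (B z - B' z) ∂ν =
        M * (((k : ℝ) + 1 - ∑ ζ ∈ Rt j, β ζ) - ((k : ℝ) + 1 - N)) := by
      rw [integral_const_mul, integral_sub iB iB', e2, hB'i]
    refine le_trans (le_of_eq (show _ = M * (((k : ℝ) + 1 - ∑ ζ ∈ Rt j, β ζ) - ((k : ℝ) + 1 - N)) from h2)) ?_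
    refine mul_le_mul_of_nonneg_left ?_ hM0
    linarith
  -- averages
  set F : ℂ → ℝ := fun z => N⁻¹ * ∑ ω ∈ Rt j, f (ω * z) with hF
  have hFc : Continuous F := by
    simp only [hF]
    exact continuous_const.mul (continuous_finsetSum _ fun ω _ => hf.comp (continuous_const.mul continuous_id))
  have hne : ∀ ω ∈ Rt j, ω ≠ 0 := by
    intro ω hω h
    have := r4 j ω hω
    rw [h, norm_zero] at this
    exact zero_ne_one this
  have a1 : ∑ ζ ∈ Rt j, F ζ = ∑ ζ ∈ Rt j, f ζ := by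
    simp only [hF]
    rw [← Finset.mul_sum, Finset.sum_comm]
    have h1 : ∀ ω ∈ Rt j, ∑ ζ ∈ Rt j, f (ω * ζ) = ∑ ζ ∈ Rt j, f ζ := by
      intro ω hω
      refine Finset.sum_nbij' (fun ζ => ω * ζ) (fun ζ => ω⁻¹ * ζ) ?_ ?_ ?_ ?_ ?_
      · intro ζ hζ; exact r5 j ω hω ζ hζ
      · intro ζ hζ
        refine r5 j _ ?_ ζ hζ
        rw [r1, inv_pow, (r1 j ω).1 hω, inv_one]
      · intro ζ _; exact inv_mul_cancel_left₀ (hne ω hω) ζ
      · intro ζ _; exact mul_inv_cancel_left₀ (hne ω hω) ζ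
      · intro ζ _; rfl
    rw [Finset.sum_congr rfl h1, Finset.sum_const, nsmul_eq_mul, hcard, ← mul_assoc, inv_mul_cancel₀ hNpos.ne', one_mul]
  have iFB' : Integrable (fun z => F z * B' z) (ν.restrict ((Rt j : Set ℂ))ᶜ) :=
    (intg hfin hsph (mulc hFc hB'c)).integrableOn
  have a2 : ∫ z in ((Rt j : Set ℂ))ᶜ, F z * B' z ∂ν = ∫ z in ((Rt j : Set ℂ))ᶜ, f z * B' z ∂ν := by
    have h1 : ∀ ω ∈ Rt j, ∫ z in ((Rt j : Set ℂ))ᶜ, f (ω * z) * B' z ∂ν =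
        ∫ z in ((Rt j : Set ℂ))ᶜ, f z * B' z ∂ν := by
      intro ω hω
      rw [← hinv j ω hω _ (mulc hf hB'c)]
      refine integral_congr_ae (Eventually.of_forall fun z => ?_)
      show f (ω * z) * B' z = f (ω * z) * B' (ω * z)
      rw [hB'r ω hω z]
    have h2 : ∀ z, F z * B' z = N⁻¹ * ∑ ω ∈ Rt j, f (ω * z) * B' z := by
      intro z
      simp only [hF]
      rw [mul_assoc, Finset.sum_mul]
    simp_rw [h2]
    rw [integral_const_mul, integral_finsetSum, Finset.sum_congr rfl h1, Finset.sum_const, nsmul_eq_mul, hcard,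
      ← mul_assoc, inv_mul_cancel₀ hNpos.ne', one_mul]
    intro ω _
    exact (intg hfin hsph ((hf.comp (continuous_const.mul continuous_id)).mul hB'c)).integrableOn
  have g3 : |∑ ζ ∈ Rt j, F ζ - N * A| ≤ N * ε := by
    have h1 : ∑ ζ ∈ Rt j, F ζ - N * A = ∑ ζ ∈ Rt j, (F ζ - A) := by
      rw [Finset.sum_sub_distrib, Finset.sum_const, nsmul_eq_mul, hcard]
    rw [h1]
    refine (Finset.abs_sum_le_sum_abs _ _).trans ?_
    refine (Finset.sum_le_sum fun ζ hζ => hA ζ (r4 j ζ hζ)).trans (le_of_eq ?_)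
    rw [Finset.sum_const, nsmul_eq_mul, hcard]
  have g4 : |∫ z in ((Rt j : Set ℂ))ᶜ, F z * B' z ∂ν - ((k : ℝ) + 1 - N) * A| ≤ ((k : ℝ) + 1 - N) * ε := by
    have h1 : ∫ z in ((Rt j : Set ℂ))ᶜ, F z * B' z ∂ν - ((k : ℝ) + 1 - N) * A =
        ∫ z in ((Rt j : Set ℂ))ᶜ, (F z - A) * B' z ∂ν := by
      have h2 : ∀ z, (F z - A) * B' z = F z * B' z - A * B' z := fun z => by ring
      simp_rw [h2]
      rw [integral_sub iFB' (iB'.const_mul A), integral_const_mul, hB'i]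
      ring
    rw [h1, ← Real.norm_eq_abs]
    have h3 : ∀ᵐ z ∂(ν.restrict ((Rt j : Set ℂ))ᶜ), ‖(F z - A) * B' z‖ ≤ ε * B' z := by
      filter_upwards [hae] with z hz
      rw [Real.norm_eq_abs, abs_mul, abs_of_nonneg (hB'n z)]
      exact mul_le_mul_of_nonneg_right (hA z hz) (hB'n z)
    refine (norm_integral_le_of_norm_le (iB'.const_mul ε) h3).trans (le_of_eq ?_)
    rw [integral_const_mul, hB'i]
    ring
  rw [a1] at g3
  rw [a2] at g4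
  rw [e1]
  rw [abs_le] at *
  constructor <;> nlinarith [g1.1, g1.2, g2.1, g2.2, g3.1, g3.2, g4.1, g4.2]

theorem t_LIM : S_MASS → S_AVG → S_SIG → S_ROOT → S_LIM := by
  intro hM hAVG hSIG hRT ν hG B hB f hf
  obtain ⟨_, _, hsig⟩ := hSIG
  rw [hsig f hf]
  set A := Real.circleAverage f 0 1 with hAdef
  obtain ⟨M, hM0, hMf⟩ : ∃ M : ℝ, 0 < M ∧ ∀ z : ℂ, ‖z‖ = 1 → |f z| ≤ M := by
    obtain ⟨C, hC⟩ := (isCompact_sphere (0 : ℂ) 1).exists_bound_of_continuousOn hf.continuousOn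
    refine ⟨max C 1, by positivity, fun z hz => ?_⟩
    exact (hC z (by simpa using hz)).trans (le_max_left _ _)
  rw [Metric.tendsto_atTop]
  intro ε hε
  obtain ⟨J, hJ⟩ := hAVG f hf (ε / 4) (by positivity)
  obtain ⟨J', hJ'⟩ := exists_pow_lt_of_lt_one (show 0 < ε / (8 * M) by positivity) (show (1 / 2 : ℝ) < 1 by norm_num)
  refine ⟨2 ^ (max J J'), fun k hk => ?_⟩
  set j := Nat.log 2 (k + 1) with hj
  have hjk : 2 ^ j ≤ k + 1 := Nat.pow_log_le_self 2 (by omega)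
  have hjJ : max J J' ≤ j := by
    rw [hj]
    exact (Nat.le_log_iff_pow_le (by norm_num) (by omega)).2 (by omega)
  have hA := hJ j ((le_max_left _ _).trans hjJ)
  have hde : de j ≤ ε / (8 * M) := by
    refine (de_le j).trans (le_trans ?_ hJ'.le)
    exact pow_le_pow_of_le_one (by norm_num) (by norm_num) ((le_max_right _ _).trans hjJ)
  have h := est hM hRT hG hf hMf j k hjk hA (hB k)
  have hk1 : (0 : ℝ) < (k : ℝ) + 1 := by positivity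
  rw [Real.dist_eq]
  have e1 : ((k : ℝ) + 1)⁻¹ * ∫ z, f z * B k z ∂ν - A =
      ((k : ℝ) + 1)⁻¹ * (∫ z, f z * B k z ∂ν - ((k : ℝ) + 1) * A) := by
    field_simp
  rw [e1, abs_mul, abs_of_pos (inv_pos.2 hk1)]
  have h2 : (2 : ℝ) ^ j ≤ (k : ℝ) + 1 := by exact_mod_cast hjk
  have h3 : 2 * M * (2 ^ j * de j) ≤ ((k : ℝ) + 1) * (ε / 4) := by
    have h4 : (2 : ℝ) ^ j * de j ≤ ((k : ℝ) + 1) * (ε / (8 * M)) :=
      (mul_le_mul_of_nonneg_left hde (by positivity)).trans (mul_le_mul_of_nonneg_right h2 (by positivity))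
    have h5 : 2 * M * (((k : ℝ) + 1) * (ε / (8 * M))) = ((k : ℝ) + 1) * (ε / 4) := by
      field_simp
      ring
    rw [← h5]
    exact mul_le_mul_of_nonneg_left h4 (by positivity)
  calc ((k : ℝ) + 1)⁻¹ * |∫ z, f z * B k z ∂ν - ((k : ℝ) + 1) * A|
      ≤ ((k : ℝ) + 1)⁻¹ * (((k : ℝ) + 1) * (ε / 4) + ((k : ℝ) + 1) * (ε / 4)) :=
        mul_le_mul_of_nonneg_left (h.trans (by linarith)) (inv_pos.2 hk1).le
    _ = ε / 2 := by field_simp; ring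
    _ < ε := by linarith

end

end Pool.Agent.Run7.h951.BG
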