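import Pool.Agent.Run7.h951.BG.MASS
import Pool.Agent.Run7.h951.BG.LIM

/-! Assembly of project BG. -/

open MeasureTheory Filter Topology Polynomial

namespace Pool.Agent.Run7.h951.BG

noncomputable section

lemma cont_posLog : Continuous fun z : ℂ => Real.posLog ‖z‖ := by
  have h : (fun z : ℂ => Real.posLog ‖z‖) = fun z : ℂ => Real.log (max 1 ‖z‖) := by
    funext z
    rcases le_total ‖z‖ 1 with h | h
    · rw [max_eq_left h, Real.log_one, Real.posLog_eq_zero_iff, abs_of_nonneg (norm_nonneg z)]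
      exact h
    · rw [max_eq_right h, Real.posLog_eq_log]
      rwa [abs_of_nonneg (norm_nonneg z)]
  rw [h]
  exact (continuous_const.max continuous_norm).log fun z => by positivity

theorem vk_disc (hMAX : S_MAX) (hPOS : S_POS) (z : ℂ) :
    VK (Metric.closedBall (0 : ℂ) 1) z = ((Real.posLog ‖z‖ : ℝ) : EReal) := by
  refine le_antisymm (sSup_le ?_) (le_sSup ?_)
  · rintro y ⟨u, hu, hC, hK, rfl⟩
    exact hMAX u hu hC hK z
  · refine ⟨_, hPOS, ⟨0, fun w => by rw [add_zero]⟩, fun w hw => ?_, rfl⟩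
    have h : Real.posLog ‖w‖ = 0 := by
      rw [Real.posLog_eq_zero_iff, abs_of_nonneg (norm_nonneg w)]
      simpa using hw
    show ((Real.posLog ‖w‖ : ℝ) : EReal) ≤ 0
    rw [h]
    exact le_refl _

/-- Q1 in dimension one -/
def StrongImpliesWeak : Prop :=
  ∀ (K : Set ℂ) (V : ℂ → ℝ) (μ ν : Measure ℂ) (B : ℕ → ℂ → ℝ), IsCompact K → Continuous V →
    (∀ z, VK K z = ((V z : ℝ) : EReal)) → IsFiniteMeasure μ → IsDdc V μ →
    IsFiniteMeasure ν → ν Kᶜ = 0 → (∀ p : ℂ[X], p ≠ 0 → 0 < ∫ z, ‖p.eval z‖ ^ 2 ∂ν) →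
    (∀ k, IsBergman ν k (B k)) → PropS ν B μ → PropW B V

theorem good_nu (h1 : S_NU1) (h2 : S_NU2) (h3 : S_NU3) : Good nu := ⟨h1.1, h1.2.1, h1.2.2, h2, h3⟩

theorem exists_bergman (hONB : S_ONB) {ν : Measure ℂ} (hG : Good ν)
    (hpd : ∀ p : ℂ[X], p ≠ 0 → 0 < ∫ z, ‖p.eval z‖ ^ 2 ∂ν) (k : ℕ) : ∃ B, IsBergman ν k B := by
  have hfd : Module.Finite ℂ (degreeLT ℂ (k + 1)) := Module.Finite.equiv (degreeLTEquiv ℂ (k + 1)).symm
  have h2 : Module.finrank ℂ (degreeLT ℂ (k + 1)) = k + 1 := by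
    rw [(degreeLTEquiv ℂ (k + 1)).finrank_eq, Module.finrank_fin_fun]
  obtain ⟨e, he, ho, _⟩ := hONB ν hG.1 hG.2.1 hpd (degreeLT ℂ (k + 1)) (k + 1) hfd h2
  refine ⟨BF e, e, fun i => ?_, ho, fun z => rfl⟩
  have h3 := mem_degreeLT.1 (he i)
  exact Nat.lt_succ_iff.1 (natDegree_lt_of_degree_lt' k (he i) h3)
where
  natDegree_lt_of_degree_lt' (k : ℕ) {p : ℂ[X]} (_ : p ∈ degreeLT ℂ (k + 1))
      (h : p.degree < ((k + 1 : ℕ) : WithBot ℕ)) : p.natDegree < k + 1 := by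
    rcases eq_or_ne p 0 with rfl | hp
    · simp
    · exact (natDegree_lt_iff_degree_lt hp).2 h

/-- the main theorem from the pieces -/
theorem main (hMAX : S_MAX) (hPOS : S_POS) (hSIG : S_SIG) (hLAPC : S_LAPC) (hNU1 : S_NU1) (hNU2 : S_NU2)
    (hNU3 : S_NU3) (hPD : S_PD) (hONB : S_ONB) (hLIM : S_LIM) (hNW : S_NW) :
    ¬ StrongImpliesWeak ∧
    ∃ ν : Measure ℂ, IsFiniteMeasure ν ∧ ν (Metric.sphere (0 : ℂ) 1)ᶜ = 0 ∧
      (∀ p : ℂ[X], p ≠ 0 → 0 < ∫ z, ‖p.eval z‖ ^ 2 ∂ν) ∧ (∃ B : ℕ → ℂ → ℝ, ∀ k, IsBergman ν k (B k)) ∧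
      ∀ B : ℕ → ℂ → ℝ, (∀ k, IsBergman ν k (B k)) → PropS ν B sig ∧
        ∀ j : ℕ, Real.log 2 / 2 * 2 ^ j ≤ (2 * ((2 ^ j : ℕ) : ℝ))⁻¹ * Real.log (B (2 ^ j) 0) := by
  have hG := good_nu hNU1 hNU2 hNU3
  have hpd := hPD nu hG
  have hex := fun k => exists_bergman hONB hG hpd k
  choose B0 hB0 using hex
  refine ⟨fun hQ => ?_, nu, hG.1, hG.2.1, hpd, ⟨B0, hB0⟩, fun B hB => ⟨hLIM nu hG B hB, (hNW nu hG B hB).1⟩⟩
  haveI := hSIG.1
  have hK : nu (Metric.closedBall (0 : ℂ) 1)ᶜ = 0 :=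
    measure_mono_null (Set.compl_subset_compl.2 Metric.sphere_subset_closedBall) hG.2.1
  refine (hNW nu hG B0 hB0).2 (hQ (Metric.closedBall (0 : ℂ) 1) (fun z => Real.posLog ‖z‖) sig nu B0
    (isCompact_closedBall 0 1) cont_posLog (vk_disc hMAX hPOS) inferInstance ?_ hG.1 hK hpd hB0 (hLIM nu hG B0 hB0))
  intro φ hφ hφc
  rw [hSIG.2.2 φ hφ.continuous]
  exact hLAPC φ hφ hφc

end

end Pool.Agent.Run7.h951.BG
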