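import Pool.Agent.Run7.h951.BG.Tools

/-! Piece MASS. -/

open MeasureTheory Filter Topology Polynomial

namespace Pool.Agent.Run7.h951.BG

noncomputable section

theorem t_MASS : S_PD → S_ONB → S_BFX → S_IDEAL → S_LAG → S_ROOT → S_MASS := by
  intro hPD hONB hBFX hID hLAG hRT ν hG j k hk B hB
  obtain ⟨hfin, hsph, hatom, htail, hinv⟩ := id hG
  obtain ⟨r1, r2, r3, r4, r5, r6⟩ := hRT
  obtain ⟨e, hdeg, hort, hBe⟩ := hB
  have hBfun : B = BF e := funext hBe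
  obtain ⟨b1, b2, b3, b4⟩ := hBFX ν hfin hsph (k + 1) e hort
  have hspan := span_top k e hdeg b2
  obtain ⟨E, hEf, hEr, hEm, hEi⟩ := hID j k hk
  obtain ⟨e', he'm, he'o, he's⟩ := hONB ν hfin hsph (hPD ν hG) E (k + 1 - 2 ^ j) hEf hEr
  obtain ⟨c1, c2, c3, c4⟩ := hBFX ν hfin hsph _ e' he'o
  rw [he's] at c3 c4
  have hBn : ∀ z, 0 ≤ B z := fun z => by rw [hBfun]; exact BF_nonneg e z
  have hB'n := BF_nonneg e'
  have hBint : ∫ z, B z ∂ν = (k : ℝ) + 1 := by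
    rw [hBfun, b1]; push_cast; ring
  have hzero : ∀ ζ ∈ Rt j, BF e' ζ = 0 := by
    intro ζ hζ
    unfold BF
    refine Finset.sum_eq_zero fun i _ => ?_
    rw [((hEm (e' i)).1 (he'm i)).2 ζ hζ]
    simp
  have hle : ∀ z, BF e' z ≤ B z := by
    intro z
    obtain ⟨p, hp, hpz, hpi⟩ := c4 z
    have h1 := b3 p (hspan p ((hEm p).1 hp).1) z
    rw [hpz, hpi, Complex.norm_real, Real.norm_eq_abs, sq_abs, ← hBfun] at h1
    rcases (hB'n z).eq_or_lt with h | h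
    · rw [← h]; exact hBn z
    · have : BF e' z * BF e' z ≤ B z * BF e' z := by nlinarith
      exact le_of_mul_le_mul_right this h
  have hne : ∀ ω ∈ Rt j, ω ≠ 0 := by
    intro ω hω h
    have := r4 j ω hω
    rw [h, norm_zero] at this
    exact zero_ne_one this
  have hsplitE : ∀ p ∈ E, ∫ w, ‖p.eval w‖ ^ 2 ∂ν = ∫ w in ((Rt j : Set ℂ))ᶜ, ‖p.eval w‖ ^ 2 ∂ν := by
    intro p hp
    rw [split_int hfin hsph j (pc p)]
    rw [Finset.sum_eq_zero, zero_add]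
    intro ζ hζ
    rw [((hEm p).1 hp).2 ζ hζ]
    simp
  have hrot1 : ∀ ω ∈ Rt j, ∀ z, BF e' (ω * z) ≤ BF e' z := by
    intro ω hω z
    obtain ⟨p, hp, hpz, hpi⟩ := c4 (ω * z)
    have hq := hEi ω hω p hp
    have h1 := c3 _ hq z
    have h2 : ∫ w, ‖(p.comp (C ω * X)).eval w‖ ^ 2 ∂ν = BF e' (ω * z) := by
      rw [hsplitE _ hq, ← hpi, hsplitE p hp, ← hinv j ω hω _ (pc p)]
      refine integral_congr_ae (Eventually.of_forall fun w => ?_)
      simp [eval_comp]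
    have h3 : (p.comp (C ω * X)).eval z = p.eval (ω * z) := by simp [eval_comp]
    rw [h2, h3, hpz, Complex.norm_real, Real.norm_eq_abs, sq_abs] at h1
    rcases (hB'n (ω * z)).eq_or_lt with h | h
    · rw [← h]; exact hB'n z
    · have : BF e' (ω * z) * BF e' (ω * z) ≤ BF e' z * BF e' (ω * z) := by nlinarith
      exact le_of_mul_le_mul_right this h
  have hrot : ∀ ω ∈ Rt j, ∀ z, BF e' (ω * z) = BF e' z := by
    intro ω hω z
    refine le_antisymm (hrot1 ω hω z) ?_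
    have h1 : ω⁻¹ ∈ Rt j := by
      rw [r1, inv_pow, (r1 j ω).1 hω, inv_one]
    have h2 := hrot1 ω⁻¹ h1 (ω * z)
    rwa [inv_mul_cancel_left₀ (hne ω hω)] at h2
  have hint' : ∫ z in ((Rt j : Set ℂ))ᶜ, BF e' z ∂ν = (k : ℝ) + 1 - 2 ^ j := by
    have h1 := split_int hfin hsph j (BF_cont e')
    rw [c1, Finset.sum_eq_zero, zero_add] at h1
    · rw [← h1, Nat.cast_sub hk]
      push_cast
      ring
    · intro ζ hζ
      rw [hzero ζ hζ, mul_zero]
  refine ⟨hBfun ▸ BF_cont e, hBint, ?_, BF e', BF_cont e', hB'n, hle, hzero, hrot, hint'⟩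
  intro ζ hζ
  have ha0 : 0 < cw j / 2 ^ j := div_pos (cw_pos j) (by positivity)
  have ha := hatom j ζ hζ
  have hapos : 0 < ν.real {ζ} := lt_of_lt_of_le ha0 ha
  have hup : B ζ * ν.real {ζ} ≤ 1 := by
    obtain ⟨p, hp, hpz, hpi⟩ := b4 ζ
    have hc : Continuous fun w => ‖p.eval w‖ ^ 2 := p.continuous.norm.pow 2
    have h1 : ∫ w in ({ζ} : Set ℂ), ‖p.eval w‖ ^ 2 ∂ν ≤ ∫ w, ‖p.eval w‖ ^ 2 ∂ν :=
      setIntegral_le_integral (intg hfin hsph hc) (Eventually.of_forall fun w => by positivity)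
    rw [integral_singleton, hpi, hpz, Complex.norm_real, Real.norm_eq_abs, sq_abs, smul_eq_mul, ← hBfun] at h1
    rcases (hBn ζ).eq_or_lt with h | h
    · rw [← h]; simp
    · have h2 : B ζ * (B ζ * ν.real {ζ}) ≤ B ζ * 1 := by nlinarith
      exact le_of_mul_le_mul_left h2 h
  refine ⟨?_, hup⟩
  obtain ⟨l, hld, hl1, hl0, hlb⟩ := hLAG j ζ hζ
  have hlc : Continuous fun w => ‖l.eval w‖ ^ 2 := l.continuous.norm.pow 2
  have h1 := b3 l (hspan l (by omega)) ζ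
  rw [hl1, ← hBfun, norm_one, one_pow] at h1
  have h2 : ∫ w, ‖l.eval w‖ ^ 2 ∂ν ≤ ν.real {ζ} + 2 * cw (j + 1) := by
    rw [split_int hfin hsph j hlc]
    have h3 : ∑ ξ ∈ Rt j, ν.real {ξ} * ‖l.eval ξ‖ ^ 2 = ν.real {ζ} := by
      rw [Finset.sum_eq_single ζ]
      · rw [hl1]; simp
      · intro ξ hξ hne'
        rw [hl0 ξ hξ hne']; simp
      · intro h; exact absurd hζ h
    rw [h3]
    have h4 : ∫ w in ((Rt j : Set ℂ))ᶜ, ‖l.eval w‖ ^ 2 ∂ν ≤ ∫ w in ((Rt j : Set ℂ))ᶜ, (1 : ℝ) ∂ν := by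
      refine integral_mono_ae (intg hfin hsph hlc).integrableOn (intg hfin hsph continuous_const).integrableOn ?_
      have h5 := ae_restrict_of_ae (s := ((Rt j : Set ℂ))ᶜ) (ae_norm hsph)
      filter_upwards [h5] with w hw
      exact pow_le_one₀ (norm_nonneg _) (hlb w hw)
    rw [integral_const, smul_eq_mul, mul_one, measureReal_restrict_apply_univ] at h4
    linarith [htail j]
  have ht : 0 < cw (j + 1) := cw_pos _
  have h3 : B ζ * ∫ w, ‖l.eval w‖ ^ 2 ∂ν ≤ B ζ * (ν.real {ζ} + 2 * cw (j + 1)) :=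
    mul_le_mul_of_nonneg_left h2 (hBn ζ)
  -- `B ζ ≤ 1 / ν{ζ} ≤ 2^j / cw j`
  have h4 : B ζ ≤ 2 ^ j / cw j := by
    have h5 : B ζ * (cw j / 2 ^ j) ≤ 1 := (mul_le_mul_of_nonneg_left ha (hBn ζ)).trans hup
    rw [le_div_iff₀ (cw_pos j)]
    have h6 : B ζ * (cw j / 2 ^ j) = B ζ * cw j / 2 ^ j := by ring
    rw [h6, div_le_iff₀ (by positivity)] at h5
    linarith
  have h5 : B ζ * (2 * cw (j + 1)) ≤ de j := by
    have h6 : de j = 2 ^ j / cw j * (2 * cw (j + 1)) := by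
      unfold de
      rw [pow_succ]
      ring
    rw [h6]
    exact mul_le_mul_of_nonneg_right h4 (by positivity)
  linarith

end

end Pool.Agent.Run7.h951.BG
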