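import Pool.Agent.Run7.h951.BG.Stm

/-! Tools for the pieces MASS and LIM. -/

open MeasureTheory Filter Topology Polynomial

namespace Pool.Agent.Run7.h951.BG

noncomputable section

lemma intg {E : Type*} [NormedAddCommGroup E] {ν : Measure ℂ} (h1 : IsFiniteMeasure ν)
    (h2 : ν (Metric.sphere (0 : ℂ) 1)ᶜ = 0) {f : ℂ → E} (hf : Continuous f) : Integrable f ν := by
  have h3 : ν.restrict (Metric.sphere (0 : ℂ) 1) = ν :=
    Measure.restrict_eq_self_of_ae_mem (by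
      rw [ae_iff]
      exact h2)
  have h4 : IntegrableOn f (Metric.sphere (0 : ℂ) 1) ν :=
    hf.continuousOn.integrableOn_compact (isCompact_sphere 0 1)
  rwa [IntegrableOn, h3] at h4

lemma ae_norm {ν : Measure ℂ} (h2 : ν (Metric.sphere (0 : ℂ) 1)ᶜ = 0) : ∀ᵐ z ∂ν, ‖z‖ = 1 := by
  rw [ae_iff]
  convert h2 using 2
  ext z
  simp

lemma split_int {ν : Measure ℂ} (h1 : IsFiniteMeasure ν)
    (h2 : ν (Metric.sphere (0 : ℂ) 1)ᶜ = 0) (j : ℕ) {f : ℂ → ℝ} (hf : Continuous f) :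
    ∫ z, f z ∂ν = ∑ ζ ∈ Rt j, ν.real {ζ} * f ζ + ∫ z in ((Rt j : Set ℂ))ᶜ, f z ∂ν := by
  have hi := intg h1 h2 hf
  rw [← integral_add_compl (s := (Rt j : Set ℂ)) (Rt j).measurableSet hi,
    setIntegral_finset (Rt j) hi.integrableOn]
  rfl

lemma pc (p : ℂ[X]) : Continuous fun w : ℂ => ‖p.eval w‖ ^ 2 := p.continuous.norm.pow 2

lemma cw_pos (j : ℕ) : 0 < cw j := by unfold cw; positivity

lemma BF_cont {m : ℕ} (e : Fin m → ℂ[X]) : Continuous (BF e) := by
  unfold BF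
  exact continuous_finsetSum _ fun i _ => (e i).continuous.norm.pow 2

lemma BF_nonneg {m : ℕ} (e : Fin m → ℂ[X]) (z : ℂ) : 0 ≤ BF e z :=
  Finset.sum_nonneg fun i _ => by positivity

lemma span_top (k : ℕ) (e : Fin (k + 1) → ℂ[X]) (hdeg : ∀ i, (e i).natDegree ≤ k)
    (hli : LinearIndependent ℂ e) (p : ℂ[X]) (hp : p.natDegree ≤ k) :
    p ∈ Submodule.span ℂ (Set.range e) := by
  have hfd : Module.Finite ℂ (degreeLT ℂ (k + 1)) := Module.Finite.equiv (degreeLTEquiv ℂ (k + 1)).symm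
  have hle : Submodule.span ℂ (Set.range e) ≤ degreeLT ℂ (k + 1) := by
    rw [Submodule.span_le]
    rintro _ ⟨i, rfl⟩
    show e i ∈ degreeLT ℂ (k + 1)
    rw [mem_degreeLT]
    exact degree_lt_of_natDegree_lt (hdeg i)
  have h1 : Module.finrank ℂ (Submodule.span ℂ (Set.range e)) = k + 1 := by
    rw [finrank_span_eq_card hli, Fintype.card_fin]
  have h2 : Module.finrank ℂ (degreeLT ℂ (k + 1)) = k + 1 := by
    rw [(degreeLTEquiv ℂ (k + 1)).finrank_eq, Module.finrank_fin_fun]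
  rw [Submodule.eq_of_le_of_finrank_eq hle (h1.trans h2.symm), mem_degreeLT]
  exact degree_lt_of_natDegree_lt hp
where
  degree_lt_of_natDegree_lt {q : ℂ[X]} (h : q.natDegree ≤ k) : q.degree < ((k + 1 : ℕ) : WithBot ℕ) :=
    lt_of_le_of_lt degree_le_natDegree (by exact_mod_cast Nat.lt_succ_of_le h)

end

end Pool.Agent.Run7.h951.BG
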